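import Pool.Agent.Lib_helper28.RP.Proj

/-!
# Symplectic residual image: no subgroup of finite index acts by scalars (over `ℂ_[p]`)
-/

set_option autoImplicit false

namespace Pool.Agent.RP

open Pool.Agent.RF

theorem proj_inf {p : ℕ} [Fact p.Prime] {G : Type*} [Group G] {k : Type*} [Field k] [CharP k p]
    {d : ℕ} (hd : d < p) (ρ : G →* Matrix (Fin d) (Fin d) ℂ_[p])
    {r : G →* Matrix (Fin d) (Fin d) k} (hsp : ContainsSp r) {red : nv ℂ_[p] →+* k}
    (htr : Rd (nv ℂ_[p]) red ρ r 1 1) (N : Subgroup G) [N.FiniteIndex] :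
    ∃ h ∈ N, ∀ c : ℂ_[p], ρ h ≠ c • 1 :=
  nonscalar_of_sp hd ρ hsp htr N

end Pool.Agent.RP
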