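import Pool.Agent.Lib_helper28.TE28.OrthEnd
import Pool.Agent.Lib_helper28.TE28.Inf

/-!
# Symplectic residual image: no open subgroup acts by scalars
-/

set_option autoImplicit false

namespace Pool.Agent.RF

open Matrix

/-- If `B` has finite image in dimension less than `p`, and `B h = 1` implies that `r h` is scalar,
then the image of `r` contains no symplectic group in at least four variables. -/
theorem heis_contra {E : Type*} [Field E] [IsAlgClosed E] [CharZero E] {p : ℕ}
    [hp : Fact p.Prime] {k : Type*} [Field k] [CharP k p] {d : ℕ} (hd : d < p)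
    {G : Type*} [Group G] (B : G →* Matrix (Fin d) (Fin d) E) (hfin : B.ker.FiniteIndex)
    {r : G →* Matrix (Fin d) (Fin d) k} (hsp : ContainsSp r)
    (hscal : ∀ h, B h = 1 → ∃ t : k, r h = t • 1) : False := by
  classical
  obtain ⟨F, _, _, g, P, Q, hg, hPQ, hQP, hF⟩ := hsp
  -- the prime is odd
  have hgd : g + g ≤ d := by
    have h1 : Function.Injective (P.mulVecLin) := by
      intro a b hab
      have h2 : P *ᵥ a = P *ᵥ b := hab
      have h3 := congrArg (fun z => Q *ᵥ z) h2
      simp only [Matrix.mulVec_mulVec, hQP, Matrix.one_mulVec] at h3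
      exact h3
    have h2 := LinearMap.finrank_le_finrank_of_injective h1
    simpa using h2
  have hp2 : (2 : k) ≠ 0 := by
    intro h2
    have h3 : p ∣ 2 := by
      rw [← CharP.cast_eq_zero_iff k p]
      exact_mod_cast h2
    have := Nat.le_of_dvd two_pos h3
    omega
  set J := Matrix.J (Fin g) F with hJ
  let i0 : Fin g := ⟨0, by omega⟩
  let i1 : Fin g := ⟨1, by omega⟩
  have hi : i0 ≠ i1 := by
    intro h
    exact absurd (congrArg Fin.val h) (by simp [i0, i1])
  let v : Fin g ⊕ Fin g → F := Pi.single (Sum.inl i0) 1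
  let w₀ : Fin g ⊕ Fin g → F := Pi.single (Sum.inl i1) 1
  let w₁ : Fin g ⊕ Fin g → F := Pi.single (Sum.inr i1) 1
  have hom : ∀ a b : Fin g ⊕ Fin g, om J (Pi.single a 1) (Pi.single b 1) = J a b := by
    intro a b
    unfold om
    rw [dotProduct_single, mul_one, Matrix.single_one_vecMul]
    rfl
  have hv0 : om J v w₀ = 0 := by
    rw [hom, hJ]
    unfold Matrix.J
    rw [Matrix.fromBlocks_apply₁₁, Matrix.zero_apply]
  have hv1 : om J v w₁ = 0 := by
    rw [hom, hJ]
    unfold Matrix.J
    rw [Matrix.fromBlocks_apply₁₂, Matrix.neg_apply, Matrix.one_apply_ne hi, neg_zero]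
  have hw : om J w₀ w₁ = -1 := by
    rw [hom, hJ]
    unfold Matrix.J
    rw [Matrix.fromBlocks_apply₁₂, Matrix.neg_apply, Matrix.one_apply_eq]
  -- the preimage of the Heisenberg group
  let H₀ : Subgroup G :=
    { carrier := {h | ∃ (w : Fin g ⊕ Fin g → F) (c : k), om J v w = 0 ∧
        r h = P * (1 + (mm k v w + c • Nk k J v v)) * Q}
      one_mem' := by
        refine ⟨0, 0, ?_, ?_⟩
        · unfold om
          rw [dotProduct_zero]
        · have h2 : mm k v (0 : Fin g ⊕ Fin g → F) = 0 := by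
            have h3 := mm_add (k := k) v 0 0
            rw [add_zero] at h3
            exact left_eq_add.mp h3
          rw [h2, zero_smul, add_zero, add_zero, Matrix.mul_one, hPQ, map_one]
      mul_mem' := by
        rintro a b ⟨w, c, h1, h2⟩ ⟨w', c', h1', h2'⟩
        refine ⟨w + w', c + c' + algebraMap F k (om J w w'), ?_, ?_⟩
        · rw [om_add_right, h1, h1', add_zero]
        · rw [map_mul, h2, h2', ← heis_mul h1 h1']
          calc P * (1 + (mm k v w + c • Nk k J v v)) * Q *
                (P * (1 + (mm k v w' + c' • Nk k J v v)) * Q)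
              = P * ((1 + (mm k v w + c • Nk k J v v)) * (Q * P) *
                (1 + (mm k v w' + c' • Nk k J v v))) * Q := by
                simp only [Matrix.mul_assoc]
            _ = _ := by rw [hQP, mul_one]
      inv_mem' := by
        rintro a ⟨w, c, h1, h2⟩
        have h1' : om J v (-w) = 0 := by
          rw [← neg_one_smul F w, om_smul_right, h1, mul_zero]
        refine ⟨-w, -c, h1', ?_⟩
        have h3 : r a * (P * (1 + (mm k v (-w) + (-c) • Nk k J v v)) * Q) = 1 := by
          rw [h2]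
          calc P * (1 + (mm k v w + c • Nk k J v v)) * Q *
                (P * (1 + (mm k v (-w) + (-c) • Nk k J v v)) * Q)
              = P * ((1 + (mm k v w + c • Nk k J v v)) * (Q * P) *
                (1 + (mm k v (-w) + (-c) • Nk k J v v))) * Q := by
                simp only [Matrix.mul_assoc]
            _ = 1 := by
                rw [hQP, mul_one, heis_mul h1 h1']
                have h4 : om J w (-w) = 0 := by
                  rw [← neg_one_smul F w, om_smul_right, om_J_self, mul_zero]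
                have h5 : mm k v (w + -w) = 0 := by
                  rw [mm_add, mm_neg, add_neg_cancel]
                rw [h4, h5, map_zero, add_neg_cancel, add_zero, zero_smul, add_zero, add_zero,
                  Matrix.mul_one, hPQ]
        have h4 : r a⁻¹ * r a = 1 := by rw [← map_mul, inv_mul_cancel, map_one]
        calc r a⁻¹ = r a⁻¹ * (r a * (P * (1 + (mm k v (-w) + (-c) • Nk k J v v)) * Q)) := by
              rw [h3, mul_one]
          _ = _ := by rw [← mul_assoc, h4, one_mul] }
  -- the elements of `H₀` have exponent `p`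
  have hpow : ∀ h : H₀, (r.comp H₀.subtype) h ^ p = 1 := by
    rintro ⟨h, w, c, h1, h2⟩
    change (r h) ^ p = 1
    rw [h2, pow_PQ hPQ hQP, pow_unip _ (heis_sq h1 c)]
    have h3 : ((p : ℕ) : Matrix (Fin g ⊕ Fin g) (Fin g ⊕ Fin g) k) = 0 := by
      rw [← map_natCast (algebraMap k (Matrix (Fin g ⊕ Fin g) (Fin g ⊕ Fin g) k)),
        CharP.cast_eq_zero, map_zero]
    rw [h3, zero_mul, add_zero, Matrix.mul_one, hPQ]
  -- the kernel
  have hker : (B.comp H₀.subtype).ker ≤ (r.comp H₀.subtype).ker := by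
    rintro ⟨h, w, c, h1, h2⟩ hh
    rw [MonoidHom.mem_ker] at hh ⊢
    change B h = 1 at hh
    change r h = 1
    obtain ⟨t, h8⟩ := hscal h hh
    have h9 : (1 + (mm k v w + c • Nk k J v v)) = t • 1 := by
      calc (1 + (mm k v w + c • Nk k J v v))
          = (Q * P) * (1 + (mm k v w + c • Nk k J v v)) * (Q * P) := by rw [hQP, one_mul, mul_one]
        _ = Q * (P * (1 + (mm k v w + c • Nk k J v v)) * Q) * P := by
            simp only [Matrix.mul_assoc]
        _ = t • 1 := by
            rw [← h2, h8, Matrix.mul_smul, Matrix.mul_one, Matrix.smul_mul, hQP]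
    have h10 : mm k v w + c • Nk k J v v = (t - 1) • 1 := by
      rw [sub_smul, one_smul, ← h9, add_sub_cancel_left]
    have h11 := heis_sq h1 c
    rw [h10, smul_mul_smul_comm, mul_one] at h11
    have h12 : (t - 1) * (t - 1) = 0 := by
      have := congrFun (congrFun h11 (Sum.inl i0)) (Sum.inl i0)
      simpa using this
    have h13 : t = 1 := by
      rcases mul_eq_zero.mp h12 with h | h <;> exact sub_eq_zero.mp h
    rw [h8, h13, one_smul]
  -- the two elements
  have hex : ∀ w : Fin g ⊕ Fin g → F, om J v w = 0 → ∃ x, r x = P * (1 + (mm k v w +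
      (0 : k) • Nk k J v v)) * Q := by
    intro w hvw
    have hwv : om J w v = 0 := by rw [om_skew om_J_self, hvw, neg_zero]
    obtain ⟨a, ha, -⟩ := exists_transvection r hPQ hQP hF 1 (v + w)
    obtain ⟨b, hb, -⟩ := exists_transvection r hPQ hQP hF (-1) v
    obtain ⟨c, hc, -⟩ := exists_transvection r hPQ hQP hF (-1) w
    refine ⟨a * b * c, ?_⟩
    rw [map_mul, map_mul, ha, hb, hc]
    have e : (1 + algebraMap F k 1 • Nk k J (v + w) (v + w)) *
        (1 + algebraMap F k (-1) • Nk k J v v) * (1 + algebraMap F k (-1) • Nk k J w w) =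
        1 + (mm k v w + (0 : k) • Nk k J v v) := by
      have e1 : Nk k J (v + w) (v + w) * Nk k J v v = 0 := by
        rw [Nk_mul, om_add_left, om_J_self, hwv, add_zero, map_zero, zero_smul]
      have e2 : Nk k J (v + w) (v + w) * Nk k J w w = 0 := by
        rw [Nk_mul, om_add_left, om_J_self, hvw, add_zero, map_zero, zero_smul]
      have e3 : Nk k J v v * Nk k J w w = 0 := by
        rw [Nk_mul, hvw, map_zero, zero_smul]
      have e4 : Nk k J (v + w) (v + w) = Nk k J v v + Nk k J w w + mm k v w := by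
        unfold mm
        rw [Nk_add_left, Nk_add_right, Nk_add_right]
        abel
      rw [map_neg, map_one, one_smul, zero_smul, add_zero, neg_smul, neg_smul, one_smul, one_smul,
        ← sub_eq_add_neg, ← sub_eq_add_neg]
      have e5 : (1 + Nk k J (v + w) (v + w)) * (1 - Nk k J v v) * (1 - Nk k J w w) =
          1 + Nk k J (v + w) (v + w) - Nk k J v v - Nk k J w w -
          Nk k J (v + w) (v + w) * Nk k J v v - Nk k J (v + w) (v + w) * Nk k J w w +
          Nk k J v v * Nk k J w w + Nk k J (v + w) (v + w) * Nk k J v v * Nk k J w w := by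
        noncomm_ring
      rw [e5, e1, e2, e3, e4, zero_mul, sub_zero, sub_zero, add_zero, add_zero]
      abel
    rw [← e]
    calc P * (1 + algebraMap F k 1 • Nk k J (v + w) (v + w)) * Q *
          (P * (1 + algebraMap F k (-1) • Nk k J v v) * Q) *
          (P * (1 + algebraMap F k (-1) • Nk k J w w) * Q)
        = P * ((1 + algebraMap F k 1 • Nk k J (v + w) (v + w)) * (Q * P) *
          (1 + algebraMap F k (-1) • Nk k J v v) * (Q * P) *
          (1 + algebraMap F k (-1) • Nk k J w w)) * Q := by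
          simp only [Matrix.mul_assoc]
      _ = _ := by rw [hQP, mul_one, mul_one]
  obtain ⟨x, hx⟩ := hex w₀ hv0
  obtain ⟨y, hy⟩ := hex w₁ hv1
  have hxH : x ∈ H₀ := ⟨w₀, 0, hv0, hx⟩
  have hyH : y ∈ H₀ := ⟨w₁, 0, hv1, hy⟩
  have hfinH : (B.comp H₀.subtype).ker.FiniteIndex := by
    have h1 : (B.comp H₀.subtype).ker = B.ker.subgroupOf H₀ := by
      ext h
      rfl
    rw [h1]
    infer_instance
  have hcomm := comm_of_finite hd (B.comp H₀.subtype) hfinH (r.comp H₀.subtype) hpow hker
    ⟨x, hxH⟩ ⟨y, hyH⟩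
  have h1 : r x * r y = r y * r x := by
    have : r (x * y) = r (y * x) := hcomm
    rwa [map_mul, map_mul] at this
  have h2 : (1 + (mm k v w₀ + (0 : k) • Nk k J v v)) * (1 + (mm k v w₁ + (0 : k) • Nk k J v v)) =
      (1 + (mm k v w₁ + (0 : k) • Nk k J v v)) * (1 + (mm k v w₀ + (0 : k) • Nk k J v v)) := by
    have key : ∀ X Y : Matrix (Fin g ⊕ Fin g) (Fin g ⊕ Fin g) k,
        X * Y = Q * (P * X * Q * (P * Y * Q)) * P := by
      intro X Y
      calc X * Y = (Q * P) * X * (Q * P) * Y * (Q * P) := by rw [hQP, one_mul, mul_one, mul_one]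
        _ = _ := by simp only [Matrix.mul_assoc]
    rw [key, key (1 + (mm k v w₁ + (0 : k) • Nk k J v v)), ← hx, ← hy, h1]
  rw [heis_mul hv0 hv1, heis_mul hv1 hv0, om_skew om_J_self w₁ w₀, hw, add_comm w₁ w₀] at h2
  have h3 : (2 : k) • Nk k J v v = 0 := by
    have h4 := congrArg (fun z => z - 1 - mm k v (w₀ + w₁)) h2
    simp only [map_neg, map_one, neg_neg, zero_add, add_zero] at h4
    have h5 : (2 : k) • Nk k J v v = (1 + (mm k v (w₀ + w₁) + (1 : k) • Nk k J v v) - 1 -
        mm k v (w₀ + w₁)) - (1 + (mm k v (w₀ + w₁) + (-1 : k) • Nk k J v v) - 1 -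
        mm k v (w₀ + w₁)) := by
      module
    rw [h5, ← h4, sub_self]
  have h4 : Nk k J v v = 0 := by
    rcases smul_eq_zero.mp h3 with h | h
    · exact absurd h hp2
    · exact h
  have h5 := congrFun (congrFun h4 (Sum.inl i0)) (Sum.inr i0)
  have h6 : Nk k J v v (Sum.inl i0) (Sum.inr i0) = -1 := by
    unfold Nk
    rw [Matrix.vecMulVec_apply]
    unfold hat
    rw [Matrix.single_one_vecMul]
    have : J.row (Sum.inl i0) (Sum.inr i0) = -1 := by
      rw [hJ]
      unfold Matrix.J
      rw [Matrix.row_apply, Matrix.fromBlocks_apply₁₂, Matrix.neg_apply, Matrix.one_apply_eq]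
    rw [this]
    simp [v]
  rw [h6, Matrix.zero_apply, neg_eq_zero] at h5
  exact one_ne_zero h5

/-- The group of pairs `(g, c)` with `c ^ d * det (ρ g) = 1`. -/
def cov {E : Type*} [Field E] {d : ℕ} {G : Type*} [Group G]
    (ρ : G →* Matrix (Fin d) (Fin d) E) : Subgroup (G × Eˣ) where
  carrier := {x | (x.2 : E) ^ d * (ρ x.1).det = 1}
  one_mem' := by
    rw [Set.mem_ofPred_eq]
    simp
  mul_mem' := by
    intro x y hx hy
    rw [Set.mem_ofPred_eq] at hx hy ⊢
    rw [Prod.snd_mul, Prod.fst_mul, map_mul, Matrix.det_mul, Units.val_mul, mul_pow]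
    calc (x.2 : E) ^ d * (y.2 : E) ^ d * ((ρ x.1).det * (ρ y.1).det)
        = ((x.2 : E) ^ d * (ρ x.1).det) * ((y.2 : E) ^ d * (ρ y.1).det) := by ring
      _ = 1 := by rw [hx, hy, one_mul]
  inv_mem' := by
    intro x hx
    rw [Set.mem_ofPred_eq] at hx ⊢
    have h1 : (ρ x.1).det * (ρ x.1⁻¹).det = 1 := by
      rw [← Matrix.det_mul, ← map_mul, mul_inv_cancel, map_one, Matrix.det_one]
    have h2 : (x.2 : E) * ((x.2⁻¹ : Eˣ) : E) = 1 := by
      rw [← Units.val_mul, mul_inv_cancel, Units.val_one]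
    have h3 : (x.2 : E) ^ d * ((x.2⁻¹ : Eˣ) : E) ^ d = 1 := by rw [← mul_pow, h2, one_pow]
    rw [Prod.snd_inv, Prod.fst_inv]
    calc ((x.2⁻¹ : Eˣ) : E) ^ d * (ρ x.1⁻¹).det
        = ((x.2 : E) ^ d * (ρ x.1).det) * (((x.2⁻¹ : Eˣ) : E) ^ d * (ρ x.1⁻¹).det) := by
          rw [hx, one_mul]
      _ = ((x.2 : E) ^ d * ((x.2⁻¹ : Eˣ) : E) ^ d) * ((ρ x.1).det * (ρ x.1⁻¹).det) := by ring
      _ = 1 := by rw [h1, h3, one_mul]

/-- The representation `(g, c) ↦ c • ρ g`. -/
def covRep {E : Type*} [Field E] {d : ℕ} {G : Type*} [Group G]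
    (ρ : G →* Matrix (Fin d) (Fin d) E) : cov ρ →* Matrix (Fin d) (Fin d) E where
  toFun x := ((x : G × Eˣ).2 : E) • ρ (x : G × Eˣ).1
  map_one' := by simp
  map_mul' := by
    intro x y
    rw [smul_mul_smul_comm, ← map_mul, ← Units.val_mul]
    rfl

/-- Projection to the group. -/
def covPr {E : Type*} [Field E] {d : ℕ} {G : Type*} [Group G]
    (ρ : G →* Matrix (Fin d) (Fin d) E) : cov ρ →* G :=
  (MonoidHom.fst G Eˣ).comp (cov ρ).subtype

theorem covPr_surj {E : Type*} [Field E] [IsAlgClosed E] {d : ℕ} (hd : d ≠ 0) {G : Type*}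
    [Group G] (ρ : G →* Matrix (Fin d) (Fin d) E) : Function.Surjective (covPr ρ) := by
  intro g
  have h1 : (ρ g).det * (ρ g⁻¹).det = 1 := by
    rw [← Matrix.det_mul, ← map_mul, mul_inv_cancel, map_one, Matrix.det_one]
  have h0 : (ρ g⁻¹).det ≠ 0 := right_ne_zero_of_mul_eq_one h1
  obtain ⟨c, hc⟩ := IsAlgClosed.exists_pow_nat_eq ((ρ g⁻¹).det) (Nat.pos_of_ne_zero hd)
  have hc0 : c ≠ 0 := by
    rintro rfl
    rw [zero_pow hd] at hc
    exact h0 hc.symm
  refine ⟨⟨(g, Units.mk0 c hc0), ?_⟩, rfl⟩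
  change c ^ d * (ρ g).det = 1
  rw [hc, mul_comm, h1]

theorem det_covRep {E : Type*} [Field E] {d : ℕ} {G : Type*} [Group G]
    (ρ : G →* Matrix (Fin d) (Fin d) E) (x : cov ρ) : (covRep ρ x).det = 1 := by
  change (((x : G × Eˣ).2 : E) • ρ (x : G × Eˣ).1).det = 1
  rw [Matrix.det_smul, Fintype.card_fin]
  exact x.2

/-- If a subgroup of finite index acts by scalars, then `covRep` has finite image. -/
theorem covRep_finite {E : Type*} [Field E] {d : ℕ} (hd : 0 < d) {G : Type*} [Group G]
    (ρ : G →* Matrix (Fin d) (Fin d) E) (N : Subgroup G) [hN : N.FiniteIndex]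
    (h : ∀ g ∈ N, ∃ c : E, ρ g = c • 1) : (covRep ρ).ker.FiniteIndex := by
  classical
  let M : Subgroup (cov ρ) := N.comap (covPr ρ)
  have hM : M.FiniteIndex := by
    refine ⟨?_⟩
    have h1 : M.index = N.relIndex (covPr ρ).range := Subgroup.index_comap N (covPr ρ)
    rw [h1]
    have : (N.subgroupOf (covPr ρ).range).FiniteIndex := inferInstance
    exact this.index_ne_zero
  -- the restriction to `M` has finite range
  have hfin : (Set.range ((covRep ρ).comp M.subtype)).Finite := by
    have h1 : {μ : E | μ ^ d = 1}.Finite := by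
      have h2 : {μ : E | μ ^ d = 1} ⊆ ((Polynomial.nthRoots d (1 : E)).toFinset : Set E) := by
        intro μ hμ
        rw [Finset.mem_coe, Multiset.mem_toFinset, Polynomial.mem_nthRoots hd]
        exact hμ
      exact (Finset.finite_toSet _).subset h2
    apply (h1.image fun μ : E => (μ • 1 : Matrix (Fin d) (Fin d) E)).subset
    rintro _ ⟨x, rfl⟩
    obtain ⟨c, hc⟩ := h (covPr ρ (x : cov ρ)) x.2
    have h3 : (covRep ρ).comp M.subtype x =
        ((((x : cov ρ) : G × Eˣ).2 : E) * c) • (1 : Matrix (Fin d) (Fin d) E) := by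
      change (((x : cov ρ) : G × Eˣ).2 : E) • ρ ((x : cov ρ) : G × Eˣ).1 = _
      have h4 : ρ ((x : cov ρ) : G × Eˣ).1 = c • 1 := hc
      rw [h4, smul_smul]
    refine ⟨(((x : cov ρ) : G × Eˣ).2 : E) * c, ?_, h3.symm⟩
    have h5 := det_covRep ρ (x : cov ρ)
    have h6 : covRep ρ (x : cov ρ) = (covRep ρ).comp M.subtype x := rfl
    rw [h6, h3, Matrix.det_smul, Fintype.card_fin, Matrix.det_one, mul_one] at h5
    exact h5
  have hfi : ((covRep ρ).comp M.subtype).ker.FiniteIndex := by
    have hF : Finite (Set.range ((covRep ρ).comp M.subtype)) := hfin.to_subtype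
    have : Finite (M ⧸ ((covRep ρ).comp M.subtype).ker) := by
      refine Finite.of_injective (β := Set.range ((covRep ρ).comp M.subtype))
        (fun q => ⟨QuotientGroup.lift ((covRep ρ).comp M.subtype).ker
          ((covRep ρ).comp M.subtype) le_rfl q, ?_⟩) ?_
      · obtain ⟨x, rfl⟩ := QuotientGroup.mk_surjective q
        exact ⟨x, rfl⟩
      · intro a b hab
        obtain ⟨a, rfl⟩ := QuotientGroup.mk_surjective a
        obtain ⟨b, rfl⟩ := QuotientGroup.mk_surjective b
        have h1 : (covRep ρ).comp M.subtype a = (covRep ρ).comp M.subtype b :=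
          congrArg Subtype.val hab
        rw [QuotientGroup.eq, MonoidHom.mem_ker, map_mul, ← h1, ← map_mul, inv_mul_cancel, map_one]
    exact Subgroup.finiteIndex_of_finite_quotient
  have h1 : ((covRep ρ).ker ⊓ M).index ≠ 0 := by
    rw [← Subgroup.relIndex_mul_index (inf_le_right : (covRep ρ).ker ⊓ M ≤ M),
      Subgroup.inf_relIndex_right]
    exact mul_ne_zero hfi.index_ne_zero hM.index_ne_zero
  have h2 : ((covRep ρ).ker ⊓ M).FiniteIndex := ⟨h1⟩
  exact Subgroup.finiteIndex_of_le (inf_le_left : (covRep ρ).ker ⊓ M ≤ (covRep ρ).ker)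

/-- If the residual representation contains a symplectic group in at least four variables and the
dimension is less than `p`, then no subgroup of finite index acts by scalars. -/
theorem nonscalar_of_sp {E : Type*} [Field E] [IsAlgClosed E] [CharZero E] {p : ℕ}
    [hp : Fact p.Prime] {k : Type*} [Field k] [CharP k p] {d : ℕ} (hd : d < p)
    {G : Type*} [Group G] {A : ValuationSubring E} {red : A →+* k}
    (ρ : G →* Matrix (Fin d) (Fin d) E) {r : G →* Matrix (Fin d) (Fin d) k} (hsp : ContainsSp r)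
    (htr : Rd A red ρ r 1 1) (N : Subgroup G) [hN : N.FiniteIndex] :
    ∃ h ∈ N, ∀ c : E, ρ h ≠ c • 1 := by
  classical
  by_contra hcon
  push Not at hcon
  have hspan := hsp.span
  have hd0 : 0 < d := by
    obtain ⟨F, _, _, g, P, Q, hg, hPQ, hQP, hF⟩ := hsp
    have := le_of_PQ hQP
    omega
  have hfin := covRep_finite hd0 ρ N hcon
  -- the residual representation of the covering
  have hsp' : ContainsSp (r.comp (covPr ρ)) := by
    obtain ⟨F, _, _, g, P, Q, hg, hPQ, hQP, hF⟩ := hsp
    refine ⟨F, ‹_›, ‹_›, g, P, Q, hg, hPQ, hQP, fun B hB => ?_⟩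
    obtain ⟨σ, hσ⟩ := hF B hB
    obtain ⟨x, rfl⟩ := covPr_surj hd0.ne' ρ σ
    exact ⟨x, hσ⟩
  -- `d` is a unit
  have hdu : ((d : E))⁻¹ ∈ A := by
    have hpn : ¬ IsUnit ((p : ℕ) : A) := by
      intro hu
      have h1 := hu.map red
      rw [map_natCast, CharP.cast_eq_zero] at h1
      exact not_isUnit_zero h1
    have hdU : IsUnit ((d : ℕ) : A) := by
      by_contra hdn
      have hcop : Nat.Coprime d p :=
        (Nat.coprime_of_lt_prime hd0.ne' hd hp.out).symm
      have h1 : IsCoprime (d : ℤ) (p : ℤ) := Nat.isCoprime_iff_coprime.mpr hcop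
      obtain ⟨a, b, hab⟩ := h1
      have h2 : ((a : A)) * ((d : ℕ) : A) + ((b : A)) * ((p : ℕ) : A) = 1 := by
        have := congrArg (fun z : ℤ => (z : A)) hab
        push_cast at this
        exact this
      have h3 : ((d : ℕ) : A) ∈ IsLocalRing.maximalIdeal A := hdn
      have h4 : ((p : ℕ) : A) ∈ IsLocalRing.maximalIdeal A := hpn
      have h5 : (1 : A) ∈ IsLocalRing.maximalIdeal A := by
        rw [← h2]
        exact Ideal.add_mem _ (Ideal.mul_mem_left _ _ h3) (Ideal.mul_mem_left _ _ h4)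
      exact (Ideal.ne_top_iff_one _).mp (IsLocalRing.maximalIdeal.isMaximal A).ne_top h5
    obtain ⟨u, hu⟩ := hdU.exists_right_inv
    have h1 : (d : E) * (u : E) = 1 := by
      have := congrArg (fun z : A => (z : E)) hu
      simpa using this
    have h2 : ((d : E))⁻¹ = (u : E) := inv_eq_of_mul_eq_one_right h1
    rw [h2]
    exact u.2
  refine heis_contra hd (covRep ρ) hfin hsp' fun x hx => ?_
  -- the elements that act trivially
  set c : E := ((x : G × Eˣ).2 : E) with hc
  have hc0 : c ≠ 0 := ((x : G × Eˣ).2).ne_zero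
  have h1 : ρ (covPr ρ x) = c⁻¹ • 1 := by
    have h2 : c • ρ (covPr ρ x) = 1 := hx
    rw [← h2, smul_smul, inv_mul_cancel₀ hc0, one_smul]
  have hcA : c⁻¹ ∈ A := by
    obtain ⟨s, hs, -⟩ := htr (covPr ρ x)
    rw [one_mul, h1, trace_smul, trace_one, Fintype.card_fin, smul_eq_mul] at hs
    have h2 : c⁻¹ = (s : E) * ((d : E))⁻¹ := by
      rw [hs, mul_assoc, mul_inv_cancel₀ (by exact_mod_cast hd0.ne'), mul_one]
    rw [h2]
    exact A.mul_mem _ _ s.2 hdu
  let t : A := ⟨c⁻¹, hcA⟩
  refine ⟨red t, ?_⟩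
  have h4 : Rd A red ρ r (ρ (covPr ρ x)) (r (covPr ρ x)) := by
    intro y
    obtain ⟨s, hs1, hs2⟩ := htr (covPr ρ x * y)
    refine ⟨s, ?_, ?_⟩
    · rw [hs1, one_mul, map_mul]
    · rw [hs2, one_mul, map_mul]
  have h5 := rd_smul t htr
  have h6 : Rd A red ρ r 0 (r (covPr ρ x) - red t • 1) := by
    have h7 := rd_add h4 (rd_smul (-1 : A) h5)
    have e1 : ρ (covPr ρ x) + ((-1 : A) : E) • (((t : A) : E) •
        (1 : Matrix (Fin d) (Fin d) E)) = 0 := by
      have e2 : ((-1 : A) : E) = -1 := rfl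
      rw [e2, h1, neg_smul, one_smul]
      exact add_neg_cancel _
    rw [e1, map_neg, map_one, neg_smul, one_smul, ← sub_eq_add_neg] at h7
    exact h7
  exact sub_eq_zero.mp (rd_eq_zero hspan h6)

end Pool.Agent.RF
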